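import Pool.Agent.W935.SK.Stm3

/-!
# Lattice points of a hyperplane in a box: lower bound
-/

set_option autoImplicit false

namespace Pool.Agent.W878.SK

open Finset Pool.Agent.H884R2.Sko
open scoped Classical

theorem core {e : ℕ} (f : Fin (e + 1) → ℤ) (j : Fin (e + 1)) (hj : f j ≠ 0) (S K H : ℕ)
    (hS : ∑ i, |f i| ≤ S) (hK : S * K ≤ H) :
    (2 * K + 1) ^ e ≤
      ((box (0 : Fin (e + 1) → ℤ) H).filter (fun a => ∑ i, f i * a i = 0)).card := by
  have hSK : (S : ℤ) * K ≤ H := by exact_mod_cast hK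
  rw [← card_box (0 : Fin e → ℤ) K]
  refine Finset.card_le_card_of_injOn
    (fun t => j.insertNth (-∑ i, f (j.succAbove i) * t i) (fun i => f j * t i)) ?_ ?_
  · intro t ht
    rw [Finset.mem_coe, mem_box] at ht
    have ht' : ∀ i, |t i| ≤ (K : ℤ) := fun i => by simpa using ht i
    have hsum := Fin.sum_univ_succAbove (fun i => |f i|) j
    have hnn : 0 ≤ ∑ i : Fin e, |f (j.succAbove i)| := Finset.sum_nonneg fun i _ => abs_nonneg _
    rw [Finset.mem_coe, Finset.mem_filter, mem_box]
    refine ⟨fun i => ?_, ?_⟩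
    · simp only [Pi.zero_apply, sub_zero]
      refine Fin.succAboveCases j ?_ (fun i => ?_) i
      · rw [Fin.insertNth_apply_same, abs_neg]
        calc |∑ i, f (j.succAbove i) * t i| ≤ ∑ i, |f (j.succAbove i) * t i| :=
              Finset.abs_sum_le_sum_abs _ _
          _ ≤ ∑ i, |f (j.succAbove i)| * K := Finset.sum_le_sum fun i _ => by
              rw [abs_mul]; exact mul_le_mul_of_nonneg_left (ht' i) (abs_nonneg _)
          _ = (∑ i, |f (j.succAbove i)|) * K := by rw [Finset.sum_mul]
          _ ≤ S * K := mul_le_mul_of_nonneg_right (by linarith [abs_nonneg (f j)]) (by positivity)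
          _ ≤ H := hSK
      · rw [Fin.insertNth_apply_succAbove, abs_mul]
        calc |f j| * |t i| ≤ S * K := mul_le_mul (by linarith) (ht' i) (abs_nonneg _) (by positivity)
          _ ≤ H := hSK
    · rw [Fin.sum_univ_succAbove _ j]
      simp only [Fin.insertNth_apply_same, Fin.insertNth_apply_succAbove]
      rw [mul_neg, Finset.mul_sum, neg_add_eq_zero]
      exact Finset.sum_congr rfl fun i _ => by ring
  · intro t _ t' _ h
    funext i
    have h1 := congrFun h (j.succAbove i)
    simp only [Fin.insertNth_apply_succAbove] at h1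
    exact mul_left_cancel₀ hj h1

/-- LOWB -/
theorem lowb : Pool.Agent.W935.SK.S_LOWB := by
  intro d f hd
  obtain ⟨e, rfl⟩ : ∃ e, d = e + 1 := ⟨d - 1, by omega⟩
  by_cases hf : ∀ i, f i = 0
  · refine ⟨1, one_pos, 0, fun H _ => ?_⟩
    have h1 : (box (0 : Fin (e + 1) → ℤ) H).filter (fun a => ∑ i, f i * a i = 0) = box 0 H := by
      apply Finset.filter_true_of_mem
      intro a _
      simp [hf]
    rw [h1, card_box, one_mul]
    have h2 : H ^ e ≤ (2 * H + 1) ^ (e + 1) :=
      (Nat.pow_le_pow_left (by omega) e).trans (Nat.pow_le_pow_right (by omega) (by omega))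
    have h3 : e + 1 - 1 = e := by omega
    rw [h3]
    exact_mod_cast h2
  · push Not at hf
    obtain ⟨j, hj⟩ := hf
    set S : ℕ := (∑ i, |f i|).toNat with hSdef
    have hnn : 0 ≤ ∑ i, |f i| := Finset.sum_nonneg fun i _ => abs_nonneg _
    have hS : ∑ i, |f i| ≤ (S : ℤ) := by rw [hSdef, Int.toNat_of_nonneg hnn]
    have hS1 : 1 ≤ S := by
      have h1 : |f j| ≤ ∑ i, |f i| :=
        Finset.single_le_sum (f := fun i => |f i|) (fun i _ => abs_nonneg _) (Finset.mem_univ j)
      have h2 : 0 < |f j| := abs_pos.2 hj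
      have h3 : (0 : ℤ) < S := by linarith
      exact_mod_cast h3
    have hSpos : (0 : ℝ) < (S : ℝ) ^ e := by positivity
    refine ⟨1 / (S : ℝ) ^ e, by positivity, 0, fun H _ => ?_⟩
    have h1 := core f j hj S (H / S) H hS (Nat.mul_div_le H S)
    have h2 : H ≤ S * (2 * (H / S) + 1) := by
      have h3 := Nat.div_add_mod H S
      have h4 := Nat.mod_lt H (show S > 0 by omega)
      nlinarith [Nat.zero_le (S * (H / S))]
    have h3 : H ^ e ≤ S ^ e * (2 * (H / S) + 1) ^ e := by
      rw [← mul_pow]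
      exact Nat.pow_le_pow_left h2 e
    have h4 : H ^ e ≤ S ^ e *
        ((box (0 : Fin (e + 1) → ℤ) H).filter (fun a => ∑ i, f i * a i = 0)).card :=
      h3.trans (Nat.mul_le_mul_left _ h1)
    have h5 : e + 1 - 1 = e := by omega
    rw [h5, one_div, inv_mul_le_iff₀ hSpos]
    exact_mod_cast h4

end Pool.Agent.W878.SK
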